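import Pool.Agent.helper92.ISA.Spec

/-!
# MP_069684 (P/Poly versus NP/Poly), row isa:DNU
-/

set_option autoImplicit false

namespace Pool.Agent.ISA

open Pool.Agent.PB Pool.Agent.ISO

theorem DNU_proof (hTHA : THA_stmt) (hCMR : CMR_stmt) (hDES : DES_stmt) : DNU_stmt := by
  intro ε hε
  obtain ⟨e, he0, he1, heε⟩ : ∃ e : ℝ, 0 < e ∧ e ≤ 1 ∧ e ≤ ε :=
    ⟨min ε 1, lt_min hε one_pos, min_le_right _ _, min_le_left _ _⟩
  refine ⟨256 / e ^ 2 * (16 / e + 1) + 1, fun m A p hm hA hp => ?_⟩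
  obtain ⟨-, h2, hθ, hθ1, h5, -⟩ := hTHA m A hm hA
  set θ := crit m A with hθdef
  have hm1 : (1 : ℝ) ≤ m := by exact_mod_cast hm
  have hL : 0 ≤ Real.log m := Real.log_nonneg hm1
  set L := 1 + Real.log m with hLdef
  have hL1 : 1 ≤ L := by linarith
  -- `1 / θ ≤ 4 L`
  have hinv : 1 / θ ≤ 4 * L := by
    rw [div_le_iff₀ hθ]
    have h6 : Real.log (2 * m) ≤ 1 + Real.log m := by
      rw [Real.log_mul (by norm_num) (by linarith)]
      have := Real.log_two_lt_d9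
      linarith
    have h7 : θ * (Real.log (2 * m) + 1) ≤ θ * (2 * L) :=
      mul_le_mul_of_nonneg_left (by linarith) hθ.le
    nlinarith
  obtain ⟨R', μ, hμ, hval⟩ := h2 ((1 + e / 8) * θ) (by nlinarith)
  have hx : 0 < 4 * (m : ℝ) ^ 2 / (e * θ) := by positivity
  set R := ⌈4 * (m : ℝ) ^ 2 / (e * θ)⌉₊ with hR
  have hR1 : 1 ≤ R := Nat.one_le_iff_ne_zero.2 (Nat.ceil_pos.2 hx).ne'
  have hR1' : (1 : ℝ) ≤ R := by exact_mod_cast hR1
  have hRle : 4 * (m : ℝ) ^ 2 / (e * θ) ≤ R := Nat.le_ceil _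
  have hRlt : (R : ℝ) < 4 * (m : ℝ) ^ 2 / (e * θ) + 1 := Nat.ceil_lt_add_one hx.le
  obtain ⟨μ', hμ', hval'⟩ := hCMR m A R R' _ μ hR1 hμ hval
  have hy : 0 < 64 * (R : ℝ) / (e ^ 2 * θ) := by positivity
  set M := ⌈64 * (R : ℝ) / (e ^ 2 * θ)⌉₊ with hM
  have hM1 : 1 ≤ M := Nat.one_le_iff_ne_zero.2 (Nat.ceil_pos.2 hy).ne'
  have hMle : 64 * (R : ℝ) / (e ^ 2 * θ) ≤ M := Nat.le_ceil _
  have hMlt : (M : ℝ) < 64 * (R : ℝ) / (e ^ 2 * θ) + 1 := Nat.ceil_lt_add_one hy.le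
  obtain ⟨K, hK1, hK2⟩ := hDES R m A M _ (e / 8) μ' (by positivity) (by linarith) hμ' hval'
  -- the sizes
  have hRb : (R : ℝ) ≤ (16 / e + 1) * (m : ℝ) ^ 2 * L := by
    have h6 : 4 * (m : ℝ) ^ 2 / (e * θ) = 4 * (m : ℝ) ^ 2 / e * (1 / θ) := by
      field_simp
    have h7 : 4 * (m : ℝ) ^ 2 / e * (1 / θ) ≤ 4 * (m : ℝ) ^ 2 / e * (4 * L) :=
      mul_le_mul_of_nonneg_left hinv (by positivity)
    have h8 : 4 * (m : ℝ) ^ 2 / e * (4 * L) = 16 / e * (m : ℝ) ^ 2 * L := by ring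
    have h9 : 1 ≤ (m : ℝ) ^ 2 * L := by
      have : 1 ≤ (m : ℝ) ^ 2 := by nlinarith
      nlinarith
    calc (R : ℝ) ≤ 4 * (m : ℝ) ^ 2 / (e * θ) + 1 := hRlt.le
      _ ≤ 16 / e * (m : ℝ) ^ 2 * L + (m : ℝ) ^ 2 * L := by rw [h6]; linarith
      _ = (16 / e + 1) * (m : ℝ) ^ 2 * L := by ring
  have hMb : (M : ℝ) ≤ (256 / e ^ 2 * (16 / e + 1) + 1) * (m : ℝ) ^ 2 * L ^ 2 := by
    have h6 : 64 * (R : ℝ) / (e ^ 2 * θ) = 64 * (R : ℝ) / e ^ 2 * (1 / θ) := by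
      field_simp
    have h7 : 64 * (R : ℝ) / e ^ 2 * (1 / θ) ≤ 64 * (R : ℝ) / e ^ 2 * (4 * L) :=
      mul_le_mul_of_nonneg_left hinv (by positivity)
    have h8 : 64 * (R : ℝ) / e ^ 2 * (4 * L) = 256 / e ^ 2 * L * R := by ring
    have h8' : 256 / e ^ 2 * L * R ≤ 256 / e ^ 2 * L * ((16 / e + 1) * (m : ℝ) ^ 2 * L) :=
      mul_le_mul_of_nonneg_left hRb (by positivity)
    have h9 : 1 ≤ (m : ℝ) ^ 2 * L ^ 2 := by
      have h10 : 1 ≤ (m : ℝ) ^ 2 := by nlinarith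
      have h11 : 1 ≤ L ^ 2 := by nlinarith
      nlinarith
    calc (M : ℝ) ≤ 64 * (R : ℝ) / (e ^ 2 * θ) + 1 := hMlt.le
      _ ≤ 256 / e ^ 2 * L * ((16 / e + 1) * (m : ℝ) ^ 2 * L) + (m : ℝ) ^ 2 * L ^ 2 := by
        rw [h6]; linarith
      _ = (256 / e ^ 2 * (16 / e + 1) + 1) * (m : ℝ) ^ 2 * L ^ 2 := by ring
  have hC : 16 / e + 1 ≤ 256 / e ^ 2 * (16 / e + 1) + 1 := by
    have h6 : 1 ≤ 256 / e ^ 2 := by
      rw [le_div_iff₀ (by positivity)]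
      nlinarith
    have h7 : 0 < 16 / e + 1 := by positivity
    nlinarith
  refine ⟨M, R, K, hM1, hMb, hRb.trans ?_, hK1, fun T => (hK2 T).trans_lt ?_⟩
  · have h6 : 0 ≤ (m : ℝ) ^ 2 * L := by positivity
    nlinarith [mul_le_mul_of_nonneg_right hC h6]
  · have hMpos : (0 : ℝ) < M := by exact_mod_cast hM1
    -- the second summand of the value
    have h6 : (m : ℝ) ^ 2 / (2 * R) ≤ e / 8 * θ := by
      rw [div_le_iff₀ (by positivity)]
      rw [div_le_iff₀ (by positivity)] at hRle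
      nlinarith
    have h7 : (R : ℝ) * Real.log 2 / (e / 8) < e / 8 * θ * M := by
      rw [div_le_iff₀ (by positivity)] at hMle
      rw [div_lt_iff₀ (by positivity)]
      have h8 : (R : ℝ) * Real.log 2 < R * 1 := by
        refine mul_lt_mul_of_pos_left ?_ (by linarith)
        have := Real.log_two_lt_d9
        linarith
      nlinarith
    have h9 : (1 + e / 8) * ((1 + e / 8) * θ + (m : ℝ) ^ 2 / (2 * R)) * M ≤
        (1 + e / 8) * ((1 + e / 4) * θ) * M := by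
      refine mul_le_mul_of_nonneg_right (mul_le_mul_of_nonneg_left ?_ (by positivity)) hMpos.le
      nlinarith
    have h10 : (1 + e / 8) * ((1 + e / 4) * θ) * M + e / 8 * θ * M ≤ (1 + e) * θ * M := by
      have h11 : (1 + e / 8) * (1 + e / 4) + e / 8 ≤ 1 + e := by nlinarith
      have h12 : 0 ≤ θ * M := by positivity
      nlinarith [mul_le_mul_of_nonneg_right h11 h12]
    have h13 : (1 + e) * θ * M ≤ p * M := by
      refine mul_le_mul_of_nonneg_right (le_trans ?_ hp) hMpos.le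
      nlinarith
    linarith

end Pool.Agent.ISA
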